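import Pool.Agent.Q173.FanDefs

/-!
# The non-smooth fan built from tilted combs: definitions
-/

namespace Q173CF

open Set Topology Filter

/-- The comb over the Cantor set with height function `h`. -/
def comb (h : cantorSet → ℝ) : Set (ℝ × ℝ) :=
  {p | p.1 ∈ Icc (0 : ℝ) 1 ∧ p.2 = 0} ∪ {p | ∃ x : cantorSet, p.1 = x ∧ 0 ≤ p.2 ∧ p.2 ≤ h x}

/-- The endpoints of a comb. -/
def combEndpoints (h : cantorSet → ℝ) : Set (ℝ × ℝ) :=
  {p | ∃ x : cantorSet, 0 < h x ∧ p = ((x : ℝ), h x)}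

/-- The data of the construction; the index `n : ℕ` stands for the index `n + 1 ≥ 1` of the
problem. -/
structure Data where
  /-- the height function of the comb `C_L` -/
  h : cantorSet → ℝ
  h_nonneg : ∀ x, 0 ≤ h x
  h_le_one : ∀ x, h x ≤ 1
  h_usc : UpperSemicontinuous h
  /-- the endpoints of `C_L` are dense in the part `C_L ∩ (K × [0,1])` of `C_L` over `K` (the
  union of the blades; they cannot be dense in the rest of the bottom segment) -/
  dense_endpoints : comb h ∩ {p | p.1 ∈ cantorSet} ⊆ closure (combEndpoints h)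
  /-- the sets `K_n` -/
  Kn : ℕ → Set cantorSet
  closed_Kn : ∀ n, IsClosed (Kn n)
  nowhereDense_Kn : ∀ n, IsNowhereDense (Kn n)
  /-- every choice of points `d n ∈ K_n` gives a dense subset of `K` -/
  dense_choice : ∀ d : ℕ → cantorSet, (∀ n, d n ∈ Kn n) → Dense (range d)
  /-- the homeomorphisms `K → K_n` -/
  φ : ∀ n, cantorSet ≃ₜ Kn n

/-- The bottom segment `[0,1] × {0} × {0}`. -/
def bottom : Set (ℝ × ℝ × ℝ) := {p | p.1 ∈ Icc (0 : ℝ) 1 ∧ p.2.1 = 0 ∧ p.2.2 = 0}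

/-- The set `C_K = (K × [0,1] × {0}) ∪ ([0,1] × {0} × {0})`. -/
def CK : Set (ℝ × ℝ × ℝ) := {p | p.1 ∈ cantorSet ∧ p.2.1 ∈ Icc (0 : ℝ) 1 ∧ p.2.2 = 0} ∪ bottom

namespace Data

variable (D : Data)

/-- The set `C_L^n`: the image of `C_L ∩ (K × [0,1])` under
`(x,y) ↦ (φ_n x, 1 - y/2, y/(2n))` (with `n + 1` in place of `n`). -/
def CL (n : ℕ) : Set (ℝ × ℝ × ℝ) :=
  (fun q : cantorSet × ℝ =>
    ((((D.φ n q.1 : D.Kn n) : cantorSet) : ℝ), 1 - q.2 / 2, q.2 / (2 * ((n : ℝ) + 1)))) ''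
    {q : cantorSet × ℝ | ((q.1 : ℝ), q.2) ∈ comb D.h}

/-- The set `C`. -/
def C : Set (ℝ × ℝ × ℝ) := CK ∪ ⋃ n, D.CL n

/-- The equivalence relation on `C` collapsing the bottom segment. -/
def collapse : Setoid D.C where
  r p q := p = q ∨ ((p : ℝ × ℝ × ℝ) ∈ bottom ∧ (q : ℝ × ℝ × ℝ) ∈ bottom)
  iseqv := by
    refine ⟨fun x => Or.inl rfl, ?_, ?_⟩
    · rintro x y (h | h)
      · exact Or.inl h.symm
      · exact Or.inr ⟨h.2, h.1⟩
    · rintro x y z (rfl | h) (rfl | h')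
      · exact Or.inl rfl
      · exact Or.inr h'
      · exact Or.inr h
      · exact Or.inr ⟨h.1, h'.2⟩

/-- The quotient space `F` of `C` obtained by collapsing the bottom segment to a point. -/
abbrev F : Type := Quotient D.collapse

/-- No point of `K` carries two nondegenerate hooks (blades leaving the plane `z = 0`). -/
def SingleHooks : Prop :=
  ∀ (n m : ℕ) (x y : cantorSet), 0 < D.h x → 0 < D.h y →
    ((D.φ n x : D.Kn n) : cantorSet) = ((D.φ m y : D.Kn m) : cantorSet) → n = m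

end Data

/-- A space is planar if it embeds in `ℝ²`. -/
def IsPlanar (X : Type*) [TopologicalSpace X] : Prop := ∃ f : X → ℝ × ℝ, IsEmbedding f

end Q173CF
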