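import Mathlib

/-!
# A Cantor set in `[0,1]` with large gaps
-/

namespace Q173CF

open Set Topology Filter

/-- integer code of the prefix of length `k` -/
def N : ℕ → (ℕ → Bool) → ℕ
  | 0, _ => 0
  | k + 1, s => 5 * N k s + (if s k then 1 else 0)

/-- the embedding of the Cantor space -/
noncomputable def gg (s : ℕ → Bool) : ℝ := ∑' i, 4 * (if s i then (1 : ℝ) else 0) / 5 ^ (i + 1)

/-- terms -/
noncomputable def term (s : ℕ → Bool) (i : ℕ) : ℝ := 4 * (if s i then (1 : ℝ) else 0) / 5 ^ (i + 1)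

theorem term_nonneg (s : ℕ → Bool) (i : ℕ) : 0 ≤ term s i := by
  unfold term; split_ifs <;> positivity

theorem term_le (s : ℕ → Bool) (i : ℕ) : term s i ≤ 4 / 5 * (1 / 5) ^ i := by
  unfold term
  have h : (4 : ℝ) / 5 * (1 / 5) ^ i = 4 * 1 / 5 ^ (i + 1) := by
    rw [pow_succ]; simp; field_simp
  rw [h]
  apply div_le_div_of_nonneg_right _ (by positivity)
  split_ifs <;> norm_num

theorem summable_bound : Summable (fun i : ℕ => (4 : ℝ) / 5 * (1 / 5) ^ i) :=
  (summable_geometric_of_lt_one (by norm_num) (by norm_num)).mul_left _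

theorem summable_term (s : ℕ → Bool) : Summable (term s) :=
  Summable.of_nonneg_of_le (term_nonneg s) (term_le s) summable_bound

theorem sum_term (s : ℕ → Bool) (k : ℕ) :
    ∑ i ∈ Finset.range k, term s i = 4 * (N k s : ℝ) * (1 / 5) ^ k := by
  induction k with
  | zero => simp [N]
  | succ k ih =>
    rw [Finset.sum_range_succ, ih]
    unfold term
    simp only [N]
    push_cast
    rw [pow_succ, pow_succ]
    have h5 : (5 : ℝ) ^ k ≠ 0 := by positivity
    simp only [one_div, inv_pow]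
    split_ifs <;> field_simp

theorem tail_le (s : ℕ → Bool) (k : ℕ) : ∑' i, term s (i + k) ≤ (1 / 5 : ℝ) ^ k := by
  have h1 : ∀ i, term s (i + k) ≤ (4 / 5 * (1 / 5) ^ k) * (1 / 5) ^ i := by
    intro i
    refine (term_le s (i + k)).trans (le_of_eq ?_)
    rw [pow_add]; ring
  have hs : Summable (fun i : ℕ => (4 / 5 * (1 / 5 : ℝ) ^ k) * (1 / 5) ^ i) :=
    (summable_geometric_of_lt_one (by norm_num) (by norm_num)).mul_left _
  have h2 := Summable.tsum_le_tsum h1 ((summable_nat_add_iff k).2 (summable_term s)) hs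
  refine h2.trans (le_of_eq ?_)
  rw [tsum_mul_left, tsum_geometric_of_lt_one (by norm_num) (by norm_num)]
  have : ((1 : ℝ) - 1 / 5)⁻¹ = 5 / 4 := by norm_num
  rw [this]
  ring

theorem gg_split (s : ℕ → Bool) (k : ℕ) :
    gg s = 4 * (N k s : ℝ) * (1 / 5) ^ k + ∑' i, term s (i + k) := by
  rw [← sum_term]
  exact ((summable_term s).sum_add_tsum_nat_add k).symm

theorem le_gg (s : ℕ → Bool) (k : ℕ) : 4 * (N k s : ℝ) * (1 / 5) ^ k ≤ gg s := by
  rw [gg_split s k]
  have : 0 ≤ ∑' i, term s (i + k) := tsum_nonneg fun i => term_nonneg s _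
  linarith

theorem gg_le (s : ℕ → Bool) (k : ℕ) : gg s ≤ 4 * (N k s : ℝ) * (1 / 5) ^ k + (1 / 5) ^ k := by
  rw [gg_split s k]
  have := tail_le s k
  linarith

theorem N_tri (s s' : ℕ → Bool) (k : ℕ) :
    (4 * (N k s : ℝ) * (1 / 5) ^ k + 4 * (1 / 5) ^ k ≤ 4 * (N k s' : ℝ) * (1 / 5) ^ k) ∨
    (N k s = N k s') ∨
    (4 * (N k s' : ℝ) * (1 / 5) ^ k + 4 * (1 / 5) ^ k ≤ 4 * (N k s : ℝ) * (1 / 5) ^ k) := by
  have hw : (0 : ℝ) < (1 / 5) ^ k := by positivity
  rcases lt_trichotomy (N k s) (N k s') with h | h | h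
  · left
    have : (N k s : ℝ) + 1 ≤ N k s' := by exact_mod_cast h
    nlinarith
  · exact Or.inr (Or.inl h)
  · right; right
    have : (N k s' : ℝ) + 1 ≤ N k s := by exact_mod_cast h
    nlinarith

theorem N_succ_eq {k : ℕ} {s s' : ℕ → Bool} (h : N (k + 1) s = N (k + 1) s') :
    N k s = N k s' ∧ s k = s' k := by
  simp only [N] at h
  cases hs : s k <;> cases hs' : s' k <;> simp [hs, hs'] at h ⊢ <;> omega

theorem N_eq_of_le {k l : ℕ} (hkl : k ≤ l) {s s' : ℕ → Bool} (h : N l s = N l s') :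
    N k s = N k s' := by
  induction l, hkl using Nat.le_induction with
  | base => exact h
  | succ l _ ih => exact ih (N_succ_eq h).1

theorem eq_of_N {s s' : ℕ → Bool} (h : ∀ k, N k s = N k s') : s = s' := by
  funext k
  exact (N_succ_eq (h (k + 1))).2

theorem gg_injective : Function.Injective gg := by
  intro s s' h
  apply eq_of_N
  intro k
  have hw : (0 : ℝ) < (1 / 5) ^ k := by positivity
  have h1 := le_gg s k
  have h2 := gg_le s k
  have h3 := le_gg s' k
  have h4 := gg_le s' k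
  rcases N_tri s s' k with h5 | h5 | h5
  · linarith
  · exact h5
  · linarith

theorem continuous_N (k : ℕ) : Continuous (N k) := by
  induction k with
  | zero => exact continuous_const
  | succ k ih =>
    have h1 : Continuous (fun b : Bool => if b then 1 else 0 : Bool → ℕ) :=
      continuous_of_discreteTopology
    have h2 : Continuous (fun s : ℕ → Bool => (if s k then 1 else 0 : ℕ)) :=
      h1.comp (continuous_apply k)
    exact (ih.const_mul 5).add h2

theorem continuous_gg : Continuous gg := by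
  have h := continuous_tsum (f := fun (i : ℕ) (s : ℕ → Bool) => term s i)
    (u := fun i : ℕ => (4 : ℝ) / 5 * (1 / 5) ^ i) ?_ summable_bound ?_
  · exact h
  · intro i
    have h1 : Continuous (fun b : Bool => 4 * (if b then (1 : ℝ) else 0) / 5 ^ (i + 1)) :=
      continuous_of_discreteTopology
    exact h1.comp (continuous_apply i)
  · intro i s
    rw [Real.norm_eq_abs, abs_of_nonneg (term_nonneg s i)]
    exact term_le s i

theorem separate {A B : Set (ℕ → Bool)} (hA : IsClosed A) (hB : IsClosed B)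
    (hAB : ∀ s ∈ A, s ∉ B) : ∃ k₀, ∀ k ≥ k₀, ∀ s ∈ A, ∀ s' ∈ B, N k s ≠ N k s' := by
  by_contra hcon
  push Not at hcon
  let E : ℕ → Set ((ℕ → Bool) × (ℕ → Bool)) :=
    fun k => {p | p.1 ∈ A ∧ p.2 ∈ B ∧ N k p.1 = N k p.2}
  have hEc : ∀ k, IsClosed (E k) := by
    intro k
    refine (hA.preimage continuous_fst).inter ((hB.preimage continuous_snd).inter ?_)
    exact isClosed_eq ((continuous_N k).comp continuous_fst) ((continuous_N k).comp continuous_snd)
  have hEm : ∀ k, E (k + 1) ⊆ E k := by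
    rintro k ⟨s, s'⟩ ⟨h1, h2, h3⟩
    exact ⟨h1, h2, N_eq_of_le (Nat.le_succ k) h3⟩
  have hEn : ∀ k, (E k).Nonempty := by
    intro k
    obtain ⟨l, hl, s, hs, s', hs', h⟩ := hcon k
    exact ⟨(s, s'), hs, hs', N_eq_of_le hl h⟩
  obtain ⟨⟨s, s'⟩, hs⟩ := IsCompact.nonempty_iInter_of_sequence_nonempty_isCompact_isClosed E hEm
    hEn (hEc 0).isCompact hEc
  rw [mem_iInter] at hs
  have h1 : s = s' := eq_of_N fun k => (hs k).2.2
  subst h1
  exact hAB s (hs 0).1 (hs 0).2.1

end Q173CF
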