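import Pool.Agent.Q173.CF.Digits

/-!
# Drawing the hooks
-/

namespace Q173CF

open Set Topology Filter

/-- cell width -/
noncomputable def wd (k : ℕ) : ℝ := (1 / 5) ^ k

/-- left end of the cell of level `k` containing `s` -/
noncomputable def aa (k : ℕ) (s : ℕ → Bool) : ℝ := 4 * (N k s : ℝ) * (1 / 5) ^ k

/-- center -/
noncomputable def cc (k : ℕ) (s : ℕ → Bool) : ℝ := aa k s + 3 / 2 * wd k

/-- radius -/
noncomputable def rr (k : ℕ) (s : ℕ → Bool) : ℝ := cc k s - gg s

/-- the clamped parameter -/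
noncomputable def sg (δ t : ℝ) : ℝ := max (-1) (min 1 (2 * (t - δ) / δ - 1))

/-- horizontal position -/
noncomputable def UU (k : ℕ) (δ : ℝ) (s : ℕ → Bool) (t : ℝ) : ℝ := cc k s + rr k s * sg δ t

/-- vertical position -/
noncomputable def WW (k : ℕ) (δ : ℝ) (s : ℕ → Bool) (t : ℝ) : ℝ :=
  1 + min t δ + rr k s * (1 - |sg δ t|) - max 0 (t - 2 * δ) / 2

theorem wd_pos (k : ℕ) : 0 < wd k := by unfold wd; positivity

theorem wd_succ_le {k l : ℕ} (h : k < l) : wd l ≤ wd k / 5 := by
  have : wd l ≤ wd (k + 1) := by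
    unfold wd
    exact pow_le_pow_of_le_one (by norm_num) (by norm_num) h
  refine this.trans (le_of_eq ?_)
  unfold wd
  rw [pow_succ]; ring

theorem aa_le (k : ℕ) (s : ℕ → Bool) : aa k s ≤ gg s := le_gg s k

theorem le_aa (k : ℕ) (s : ℕ → Bool) : gg s ≤ aa k s + wd k := gg_le s k

theorem aa_eq {k : ℕ} {s s' : ℕ → Bool} (h : N k s = N k s') : aa k s = aa k s' := by
  unfold aa; rw [h]

theorem cc_eq {k : ℕ} {s s' : ℕ → Bool} (h : N k s = N k s') : cc k s = cc k s' := by
  unfold cc; rw [aa_eq h]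

theorem tri (k : ℕ) (s s' : ℕ → Bool) :
    (aa k s + 4 * wd k ≤ aa k s') ∨ (N k s = N k s') ∨ (aa k s' + 4 * wd k ≤ aa k s) :=
  N_tri s s' k

theorem rr_ge (k : ℕ) (s : ℕ → Bool) : wd k / 2 ≤ rr k s := by
  have := le_aa k s
  unfold rr cc; linarith

theorem rr_le (k : ℕ) (s : ℕ → Bool) : rr k s ≤ 3 / 2 * wd k := by
  have := aa_le k s
  unfold rr cc; linarith

theorem rr_pos (k : ℕ) (s : ℕ → Bool) : 0 < rr k s := by
  have := rr_ge k s
  have := wd_pos k
  linarith

/-- the three parts of a hook -/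
theorem parts {k : ℕ} {δ : ℝ} (hδ : 0 < δ) (s : ℕ → Bool) (t : ℝ) :
    (t ≤ δ ∧ UU k δ s t = gg s ∧ WW k δ s t = 1 + t) ∨
    (δ < t ∧ t ≤ 2 * δ ∧ ∃ p : ℝ, p = rr k s * (2 * (t - δ) / δ - 1) ∧ - rr k s < p ∧ p ≤ rr k s ∧
      UU k δ s t = cc k s + p ∧ WW k δ s t = 1 + δ + rr k s - |p|) ∨
    (2 * δ < t ∧ UU k δ s t = 2 * cc k s - gg s ∧ WW k δ s t = 1 + δ - (t - 2 * δ) / 2) := by
  have hr := rr_pos k s
  rcases le_or_gt t δ with h | h
  · left
    have h1 : sg δ t = -1 := by
      unfold sg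
      have : 2 * (t - δ) / δ ≤ 0 := by
        apply div_nonpos_of_nonpos_of_nonneg <;> linarith
      rw [min_eq_right (by linarith), max_eq_left (by linarith)]
    refine ⟨h, ?_, ?_⟩
    · unfold UU; rw [h1]; unfold rr; ring
    · unfold WW
      rw [h1, min_eq_left h, max_eq_left (by linarith)]
      simp
  rcases le_or_gt t (2 * δ) with h' | h'
  · right; left
    have h0 : 0 < 2 * (t - δ) / δ := by
      apply div_pos <;> linarith
    have h2 : 2 * (t - δ) / δ ≤ 2 := by
      rw [div_le_iff₀ hδ]; linarith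
    have h1 : sg δ t = 2 * (t - δ) / δ - 1 := by
      unfold sg
      rw [min_eq_right (by linarith), max_eq_right (by linarith)]
    refine ⟨h, h', rr k s * (2 * (t - δ) / δ - 1), rfl, by nlinarith, by nlinarith, ?_, ?_⟩
    · unfold UU; rw [h1]
    · unfold WW
      rw [h1, min_eq_right h.le, max_eq_left (by linarith), abs_mul, abs_of_pos hr]
      ring
  · right; right
    have h0 : 2 < 2 * (t - δ) / δ := by
      rw [lt_div_iff₀ hδ]; linarith
    have h1 : sg δ t = 1 := by
      unfold sg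
      rw [min_eq_left (by linarith), max_eq_right (by norm_num)]
    refine ⟨h', ?_, ?_⟩
    · unfold UU; rw [h1]; unfold rr; ring
    · unfold WW
      rw [h1, min_eq_right (by linarith), max_eq_right (by linarith)]
      simp

/-- A hook never meets the part of a vertical blade of height at most one. -/
theorem hook_ne_blade {k : ℕ} {δ : ℝ} (hδ : 0 < δ) (s s' : ℕ → Bool) {t y : ℝ} (ht : 0 < t)
    (hy : y ≤ 1) (hU : UU k δ s t = gg s') (hW : WW k δ s t = y) : False := by
  have hr := rr_pos k s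
  rcases parts (k := k) hδ s t with ⟨-, -, h⟩ | ⟨-, -, p, -, h1, h2, h3, h4⟩ | ⟨h1, h2, h3⟩
  · linarith
  · have : |p| ≤ rr k s := abs_le.2 ⟨h1.le, h2⟩
    linarith
  · rw [hU] at h2
    have hw := wd_pos k
    have e1 := aa_le k s
    have e2 := le_aa k s
    have e3 := aa_le k s'
    have e4 := le_aa k s'
    unfold cc at h2
    rcases tri k s s' with h | h | h
    · linarith
    · rw [aa_eq h] at *
      linarith
    · linarith

theorem gap {k : ℕ} {s s' : ℕ → Bool} (h : gg s = 2 * cc k s' - gg s') : False := by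
  have hw := wd_pos k
  have e1 := aa_le k s
  have e2 := le_aa k s
  have e3 := aa_le k s'
  have e4 := le_aa k s'
  unfold cc at h
  rcases tri k s s' with h' | h' | h'
  · linarith
  · rw [aa_eq h'] at *
    linarith
  · linarith

theorem same_VT {k : ℕ} {δ : ℝ} {s s' : ℕ → Bool} {t p : ℝ} (h : t ≤ δ)
    (h1 : - rr k s' < p) (h2 : p ≤ rr k s') (hU : gg s = cc k s' + p)
    (hW : 1 + t = 1 + δ + rr k s' - |p|) : False := by
  have hr := rr_pos k s'
  have h3 : p = rr k s' := by
    rcases abs_cases p with ⟨h, _⟩ | ⟨h, _⟩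
    · linarith
    · linarith
  rw [h3] at hU
  refine gap (k := k) (s := s) (s' := s') ?_
  rw [hU]; unfold rr; ring

/-- Two hooks of the same level meet only if they are equal. -/
theorem inj_same {k : ℕ} {δ : ℝ} (hδ : 0 < δ) {s s' : ℕ → Bool} {t t' : ℝ}
    (hU : UU k δ s t = UU k δ s' t') (hW : WW k δ s t = WW k δ s' t') : s = s' ∧ t = t' := by
  have hw := wd_pos k
  have hr := rr_pos k s
  have hr' := rr_pos k s'
  have e1 := aa_le k s
  have e2 := le_aa k s
  have e3 := aa_le k s'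
  have e4 := le_aa k s'
  rcases parts (k := k) hδ s t with ⟨a1, a2, a3⟩ | ⟨a1, a2, p, a3, a4, a5, a6, a7⟩ | ⟨a1, a2, a3⟩ <;>
  rcases parts (k := k) hδ s' t' with ⟨b1, b2, b3⟩ | ⟨b1, b2, q, b3, b4, b5, b6, b7⟩ | ⟨b1, b2, b3⟩
  · exact ⟨gg_injective (by linarith), by linarith⟩
  · exact (same_VT (s := s) (s' := s') a1 b4 b5 (by linarith) (by linarith)).elim
  · exact (gap (k := k) (s := s) (s' := s') (by linarith)).elim
  · exact (same_VT (s := s') (s' := s) b1 a4 a5 (by linarith) (by linarith)).elim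
  · -- T-T
    rcases tri k s s' with h | h | h
    · exfalso
      unfold rr at *
      unfold cc at *
      linarith
    · have hc := cc_eq h
      have hpq : p = q := by linarith
      subst hpq
      have hrr : rr k s = rr k s' := by linarith
      have hg : gg s = gg s' := by
        unfold rr at hrr; linarith
      refine ⟨gg_injective hg, ?_⟩
      rw [a3, hrr] at b3
      have h1 := mul_left_cancel₀ hr'.ne' b3
      have h2 : 2 * (t - δ) / δ = 2 * (t' - δ) / δ := by linarith
      rw [div_left_inj' hδ.ne'] at h2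
      linarith
    · exfalso
      unfold rr at *
      unfold cc at *
      linarith
  · exfalso
    have : |p| ≤ rr k s := abs_le.2 ⟨a4.le, a5⟩
    linarith
  · exact (gap (k := k) (s := s') (s' := s) (by linarith)).elim
  · exfalso
    have : |q| ≤ rr k s' := abs_le.2 ⟨b4.le, b5⟩
    linarith
  · rcases tri k s s' with h | h | h
    · exfalso
      unfold cc at *
      linarith
    · have hc := cc_eq h
      exact ⟨gg_injective (by linarith), by linarith⟩
    · exfalso
      unfold cc at *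
      linarith

/-- Two hooks of different levels do not meet. -/
theorem inj_lt {k l : ℕ} {δ ε : ℝ} (hε : 0 < ε) (hkl : k < l) (hεδ : 4 * ε ≤ δ)
    (hδw : 3 / 2 * wd l ≤ ε) {s s' : ℕ → Bool} {t t' : ℝ} (hss : s ≠ s')
    (hsep : ε ≤ t → ε ≤ t' → N l s ≠ N l s')
    (hU : UU k δ s t = UU l ε s' t') (hW : WW k δ s t = WW l ε s' t') : False := by
  have hδ : 0 < δ := by linarith
  have hw := wd_pos k
  have hw' := wd_pos l
  have hww := wd_succ_le hkl
  have hr := rr_pos k s
  have hr' := rr_pos l s'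
  have hrl := rr_le l s'
  have e1 := aa_le k s
  have e2 := le_aa k s
  have e3 := aa_le l s'
  have e4 := le_aa l s'
  have e5 := aa_le k s'
  have e6 := le_aa k s'
  have e7 := aa_le l s
  have e8 := le_aa l s
  rcases parts (k := k) hδ s t with ⟨a1, a2, a3⟩ | ⟨a1, a2, p, a3, a4, a5, a6, a7⟩ | ⟨a1, a2, a3⟩ <;>
  rcases parts (k := l) hε s' t' with ⟨b1, b2, b3⟩ | ⟨b1, b2, q, b3, b4, b5, b6, b7⟩ | ⟨b1, b2, b3⟩
  · exact hss (gg_injective (by linarith))
  · have : |q| ≤ rr l s' := abs_le.2 ⟨b4.le, b5⟩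
    have ht : ε ≤ t := by linarith
    have hne := hsep ht b1.le
    unfold rr at b4 b5
    unfold cc at *
    rcases tri l s s' with h | h | h
    · linarith
    · exact hne h
    · linarith
  · exact gap (k := l) (s := s) (s' := s') (by linarith)
  · have : |p| ≤ rr k s := abs_le.2 ⟨a4.le, a5⟩
    linarith
  · have : |p| ≤ rr k s := abs_le.2 ⟨a4.le, a5⟩
    have : 0 ≤ |q| := abs_nonneg q
    linarith
  · have : |p| ≤ rr k s := abs_le.2 ⟨a4.le, a5⟩
    linarith
  · exact gap (k := k) (s := s') (s' := s) (by linarith)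
  · unfold rr at b4 b5
    unfold cc at *
    rcases tri k s s' with h | h | h
    · linarith
    · have := aa_eq h
      linarith
    · linarith
  · unfold cc at *
    rcases tri k s s' with h | h | h
    · linarith
    · have := aa_eq h
      linarith
    · linarith

theorem WW_pos {k : ℕ} {δ : ℝ} (hδ : 0 < δ) (s : ℕ → Bool) {t : ℝ} (ht : 0 ≤ t) (ht1 : t ≤ 1) :
    0 < WW k δ s t := by
  have hr := rr_pos k s
  rcases parts (k := k) hδ s t with ⟨a1, a2, a3⟩ | ⟨a1, a2, p, a3, a4, a5, a6, a7⟩ | ⟨a1, a2, a3⟩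
  · linarith
  · have : |p| ≤ rr k s := abs_le.2 ⟨a4.le, a5⟩
    linarith
  · linarith

end Q173CF
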