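import Pool.Agent.Q173.CF.Planar

/-!
# Compactness of `C` and the fan property
-/

namespace Q173CF

open Set Topology Filter Q173Fan

theorem isCompact_CL (D : Data) (n : ℕ) : IsCompact (D.CL n) := by
  have : CompactSpace cantorSet := isCompact_iff_compactSpace.1 isCompact_cantorSet
  have h1 : IsCompact {q : cantorSet × ℝ | 0 ≤ q.2 ∧ q.2 ≤ D.h q.1} := by
    refine (isCompact_univ.prod (isCompact_Icc (a := (0 : ℝ)) (b := 1))).of_isClosed_subset ?_ ?_
    · exact (isClosed_le continuous_const continuous_snd).inter D.h_usc.IsClosed_hypograph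
    · rintro ⟨x, t⟩ ⟨h1, h2⟩
      exact ⟨mem_univ _, h1, h2.trans (D.h_le_one x)⟩
  have h2 : {q : cantorSet × ℝ | ((q.1 : ℝ), q.2) ∈ comb D.h} =
      {q : cantorSet × ℝ | 0 ≤ q.2 ∧ q.2 ≤ D.h q.1} := by
    ext ⟨x, t⟩
    constructor
    · rintro (⟨-, h2⟩ | ⟨x', h1, h2, h3⟩)
      · simp only at h2
        subst h2
        exact ⟨le_rfl, D.h_nonneg x⟩
      · have : x' = x := Subtype.ext h1.symm
        subst this
        exact ⟨h2, h3⟩
    · rintro ⟨h1, h2⟩
      exact Or.inr ⟨x, rfl, h1, h2⟩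
  unfold Data.CL
  rw [h2]
  refine h1.image ?_
  have h3 : Continuous (fun q : cantorSet × ℝ => (((D.φ n q.1 : D.Kn n) : cantorSet) : ℝ)) :=
    continuous_subtype_val.comp ((D.continuous_base n).comp continuous_fst)
  fun_prop

theorem mem_CL_bounds (D : Data) {n : ℕ} {p : ℝ × ℝ × ℝ} (hp : p ∈ D.CL n) :
    p.1 ∈ cantorSet ∧ p.2.1 ∈ Icc (0 : ℝ) 1 ∧ 0 ≤ p.2.2 ∧ 2 * ((n : ℝ) + 1) * p.2.2 ≤ 1 := by
  obtain ⟨⟨x, t⟩, hq, rfl⟩ := hp
  have ht : 0 ≤ t ∧ t ≤ 1 := by
    rcases hq with ⟨-, h2⟩ | ⟨x', h1, h2, h3⟩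
    · simp only at h2
      subst h2
      exact ⟨le_rfl, zero_le_one⟩
    · exact ⟨h2, h3.trans (D.h_le_one _)⟩
  have hn : (0 : ℝ) < (n : ℝ) + 1 := by positivity
  refine ⟨Subtype.coe_prop _, ⟨by simp only; linarith, by simp only; linarith⟩, ?_, ?_⟩
  · exact div_nonneg ht.1 (by positivity)
  · simp only
    rw [mul_div_cancel₀ _ (by positivity)]
    exact ht.2

theorem isCompact_C (D : Data) : IsCompact D.C := by
  have hb : D.C ⊆ {p : ℝ × ℝ × ℝ | (p.1 ∈ cantorSet ∧ p.2.1 ∈ Icc (0 : ℝ) 1) ∨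
      (p.1 ∈ Icc (0 : ℝ) 1 ∧ p.2.1 = 0)} ∩ {p | p.2.2 ∈ Icc (0 : ℝ) 1} := by
    rintro p ((h | h) | h)
    · exact ⟨Or.inl ⟨h.1, h.2.1⟩, by rw [mem_setOf_eq, h.2.2]; exact ⟨le_rfl, zero_le_one⟩⟩
    · exact ⟨Or.inr ⟨h.1, h.2.1⟩, by rw [mem_setOf_eq, h.2.2]; exact ⟨le_rfl, zero_le_one⟩⟩
    · rw [mem_iUnion] at h
      obtain ⟨n, h⟩ := h
      obtain ⟨h1, h2, h3, h4⟩ := mem_CL_bounds D h
      refine ⟨Or.inl ⟨h1, h2⟩, h3, ?_⟩
      have : (0 : ℝ) ≤ n := Nat.cast_nonneg n
      nlinarith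
  have hcl : IsClosed ({p : ℝ × ℝ × ℝ | (p.1 ∈ cantorSet ∧ p.2.1 ∈ Icc (0 : ℝ) 1) ∨
      (p.1 ∈ Icc (0 : ℝ) 1 ∧ p.2.1 = 0)} ∩ {p | p.2.2 ∈ Icc (0 : ℝ) 1}) := by
    refine IsClosed.inter (IsClosed.union ?_ ?_) ?_
    · exact (isClosed_cantorSet.preimage continuous_fst).inter
        (isClosed_Icc.preimage (continuous_fst.comp continuous_snd))
    · exact (isClosed_Icc.preimage continuous_fst).inter
        (isClosed_eq (continuous_fst.comp continuous_snd) continuous_const)
    · exact isClosed_Icc.preimage (continuous_snd.comp continuous_snd)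
  have hclC : IsClosed D.C := by
    rw [← closure_subset_iff_isClosed]
    intro p hp
    obtain ⟨h1, h2⟩ := closure_minimal hb hcl hp
    rcases h2.1.eq_or_lt with hz | hz
    · -- in the plane
      rcases h1 with h1 | h1
      · exact Or.inl (Or.inl ⟨h1.1, h1.2, hz.symm⟩)
      · exact Or.inl (Or.inr ⟨h1.1, h1.2, hz.symm⟩)
    · -- off the plane
      obtain ⟨M, hM⟩ := exists_nat_gt (1 / p.2.2)
      have hpC : p ∈ closure (D.C ∩ {q | p.2.2 / 2 < q.2.2}) := by
        have hop : IsOpen {q : ℝ × ℝ × ℝ | p.2.2 / 2 < q.2.2} :=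
          isOpen_lt continuous_const (continuous_snd.comp continuous_snd)
        have := hop.inter_closure (t := D.C) ⟨(by simp only [mem_setOf_eq]; linarith :
          p ∈ {q : ℝ × ℝ × ℝ | p.2.2 / 2 < q.2.2}), hp⟩
        rwa [inter_comm] at this
      have hsub : D.C ∩ {q | p.2.2 / 2 < q.2.2} ⊆ ⋃ n ∈ Finset.range M, D.CL n := by
        rintro q ⟨hq, hqz⟩
        rw [mem_setOf_eq] at hqz
        rcases hq with (h | h) | h
        · rw [h.2.2] at hqz; linarith
        · rw [h.2.2] at hqz; linarith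
        · rw [mem_iUnion] at h
          obtain ⟨n, h⟩ := h
          obtain ⟨-, -, h3, h4⟩ := mem_CL_bounds D h
          rw [mem_iUnion₂]
          refine ⟨n, ?_, h⟩
          rw [Finset.mem_range]
          by_contra hn
          push Not at hn
          have hn' : (M : ℝ) ≤ n := by exact_mod_cast hn
          rw [div_lt_iff₀ hz] at hM
          nlinarith
      have hcl2 : IsClosed (⋃ n ∈ Finset.range M, D.CL n) :=
        isClosed_biUnion_finset fun n _ => (isCompact_CL D n).isClosed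
      have h5 := closure_minimal hsub hcl2 hpC
      rw [mem_iUnion₂] at h5
      obtain ⟨n, -, h5⟩ := h5
      exact Or.inr (mem_iUnion.2 ⟨n, h5⟩)
  refine ((isCompact_Icc (a := (0 : ℝ)) (b := 1)).prod ((isCompact_Icc (a := (0 : ℝ))
    (b := 1)).prod (isCompact_Icc (a := (0 : ℝ)) (b := 1)))).of_isClosed_subset hclC ?_
  intro p hp
  obtain ⟨h1 | h1, h2⟩ := hb hp
  · exact ⟨cantorSet_subset_unitInterval h1.1, h1.2, h2⟩
  · exact ⟨h1.1, by rw [h1.2]; exact ⟨le_rfl, zero_le_one⟩, h2⟩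

/-- `F` is planar if no point carries two hooks. -/
theorem planar_of_singleHooks (D : Data) (hS : D.SingleHooks) : IsPlanar D.F := by
  obtain ⟨Φ, hc, hΦ⟩ := exists_map D hS
  have : CompactSpace D.C := isCompact_iff_compactSpace.1 (isCompact_C D)
  let f : D.F → ℝ × ℝ := Quotient.lift Φ (fun p q h => (hΦ p q).2 h)
  have hf : Continuous f := hc.quotient_lift _
  have hinj : Function.Injective f := by
    intro x y
    induction x using Quotient.inductionOn with | _ p => ?_
    induction y using Quotient.inductionOn with | _ q => ?_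
    intro h
    exact Quotient.sound ((hΦ p q).1 h)
  exact ⟨f, (hf.isClosedEmbedding hinj).isEmbedding⟩

/-! ### ramification points -/

/-- the smooth-like coordinates -/
def JJ (p : ℝ × ℝ × ℝ) : ℝ × ℝ × ℝ := (p.1 * p.2.1, p.2.1, p.2.2)

theorem continuous_JJ : Continuous JJ := by
  unfold JJ; fun_prop

theorem JJ_iff (D : Data) (p q : D.C) : JJ p.1 = JJ q.1 ↔ D.collapse p q := by
  have hy : ∀ p : D.C, p.1.2.1 = 0 → p.1 ∈ bottom := by
    intro p hp
    rcases D.mem_C_cases p.2 with h | ⟨x, y, h1, h2, h⟩ | ⟨n, x, t, h1, h2, h⟩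
    · exact h
    · rw [h] at hp
      exact absurd hp h1.ne'
    · rw [h] at hp
      have h3 : 1 - t / 2 = 0 := hp
      have h4 := D.h_le_one x
      linarith
  constructor
  · intro h
    unfold JJ at h
    simp only [Prod.mk.injEq] at h
    obtain ⟨h1, h2, h3⟩ := h
    by_cases h0 : p.1.2.1 = 0
    · exact Or.inr ⟨hy p h0, hy q (h2 ▸ h0)⟩
    · left
      apply Subtype.ext
      rw [← h2] at h1
      have h4 := mul_right_cancel₀ h0 h1
      exact Prod.ext h4 (Prod.ext h2 h3)
  · rintro (h | ⟨h1, h2⟩)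
    · rw [h]
    · unfold JJ
      rw [h1.2.1, h1.2.2, h2.2.1, h2.2.2]
      simp

/-- the induced map on the quotient -/
def JF (D : Data) : D.F → ℝ × ℝ × ℝ := Quotient.lift (fun p => JJ p.1)
  (fun p q h => (JJ_iff D p q).2 h)

theorem continuous_JF (D : Data) : Continuous (JF D) :=
  (continuous_JJ.comp continuous_subtype_val).quotient_lift _

theorem injective_JF (D : Data) : Function.Injective (JF D) := by
  intro x y
  induction x using Quotient.inductionOn with | _ p => ?_
  induction y using Quotient.inductionOn with | _ q => ?_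
  intro h
  exact Quotient.sound ((JJ_iff D p q).1 h)

theorem t2_F (D : Data) : T2Space D.F :=
  T2Space.of_injective_continuous (injective_JF D) (continuous_JF D)

/-- Three paths that pairwise meet only in their common initial point give a ramification point. -/
theorem ram {X : Type*} [TopologicalSpace X] [T2Space X] (γ : Fin 3 → unitInterval → X) (p : X)
    (hc : ∀ i, Continuous (γ i)) (hi : ∀ i, Function.Injective (γ i)) (h0 : ∀ i, γ i 0 = p)
    (h : ∀ i j, i ≠ j → ∀ s t, γ i s = γ j t → s = 0) : IsRamificationPoint p := by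
  have hA : ∀ i, IsArcBetween (range (γ i)) p (γ i 1) := by
    intro i
    have := isArcBetween_of_injective (hc i) (hi i)
    rwa [h0 i] at this
  have hI : ∀ i j, i ≠ j → range (γ i) ∩ range (γ j) = {p} := by
    intro i j hij
    ext x
    constructor
    · rintro ⟨⟨s, rfl⟩, ⟨t, ht⟩⟩
      have := h i j hij s t ht.symm
      rw [this, h0]; rfl
    · intro hx
      rw [mem_singleton_iff] at hx
      subst hx
      exact ⟨⟨0, h0 i⟩, ⟨0, h0 j⟩⟩
  exact ⟨range (γ 0), range (γ 1), range (γ 2), γ 0 1, γ 1 1, γ 2 1, hA 0, hA 1, hA 2,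
    hI 0 1 (by decide), hI 0 2 (by decide), hI 1 2 (by decide)⟩

theorem fin3_of_lt {P : Fin 3 → Prop} (h0 : P 0) (h1 : P 1) (h2 : P 2) : ∀ i, P i := by
  intro i
  fin_cases i
  · exact h0
  · exact h1
  · exact h2

/-- three points of the Cantor space -/
def three (i : Fin 3) : ℕ → Bool := fun n => decide (n = (i : ℕ))

theorem three_injective : Function.Injective three := by
  intro i j h
  have := congrFun h (i : ℕ)
  unfold three at this
  simp only [decide_true] at this
  have h2 := of_decide_eq_true this.symm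
  exact Fin.ext h2

/-- The top of `F`. -/
theorem ram_top (D : Data) : ∃ o : D.F, IsRamificationPoint o ∧ JF D o = (0, 0, 0) := by
  have := t2_F D
  have h0C : ((0 : ℝ), (0 : ℝ), (0 : ℝ)) ∈ D.C :=
    Or.inl (Or.inr ⟨⟨le_rfl, zero_le_one⟩, rfl, rfl⟩)
  let o : D.F := Quotient.mk _ ⟨(0, 0, 0), h0C⟩
  let x : Fin 3 → cantorSet := fun i => ee.symm (three i)
  have hx : Function.Injective x := fun i j h => three_injective (ee.symm.injective h)
  have hC : ∀ (i : Fin 3) (s : unitInterval), ((x i : ℝ), (s : ℝ), (0 : ℝ)) ∈ D.C :=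
    fun i s => Or.inl (Or.inl ⟨(x i).2, s.2, rfl⟩)
  let γ : Fin 3 → unitInterval → D.F := fun i s => Quotient.mk _ ⟨_, hC i s⟩
  have hJ : ∀ i s, JF D (γ i s) = ((x i : ℝ) * s, (s : ℝ), 0) := fun i s => rfl
  have hJo : JF D o = (0, 0, 0) := by
    change JJ (0, 0, 0) = _
    simp [JJ]
  refine ⟨o, ram γ o ?_ ?_ ?_ ?_, hJo⟩
  · intro i
    refine continuous_quotient_mk'.comp ?_
    exact Continuous.subtype_mk (by fun_prop) _
  · intro i s t h
    have h1 := congrArg (JF D) h
    rw [hJ, hJ] at h1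
    simp only [Prod.mk.injEq] at h1
    exact Subtype.ext h1.2.1
  · intro i
    apply injective_JF D
    rw [hJ, hJo]
    simp
  · intro i j hij s t h
    have h1 := congrArg (JF D) h
    rw [hJ, hJ] at h1
    simp only [Prod.mk.injEq] at h1
    obtain ⟨h2, h3, -⟩ := h1
    by_contra hs
    have hs' : (s : ℝ) ≠ 0 := fun h => hs (Subtype.ext h)
    rw [← h3] at h2
    exact hij (hx (Subtype.ext (mul_right_cancel₀ hs' h2)))

/-- A point carrying two hooks is a ramification point. -/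
theorem ram_double (D : Data) {n m : ℕ} {x y : cantorSet} (hx : 0 < D.h x) (hy : 0 < D.h y)
    (hxy : D.base n x = D.base m y) (hnm : n ≠ m) :
    ∃ o : D.F, IsRamificationPoint o ∧ (JF D o).2.1 = 1 := by
  have := t2_F D
  set c : cantorSet := D.base n x with hc
  have h0C : ((c : ℝ), (1 : ℝ), (0 : ℝ)) ∈ D.C :=
    Or.inl (Or.inl ⟨c.2, ⟨zero_le_one, le_rfl⟩, rfl⟩)
  let o : D.F := Quotient.mk _ ⟨_, h0C⟩
  let a : Fin 3 → ℝ := ![1, D.h x, D.h y]
  let b : Fin 3 → ℝ := ![0, 1 / (2 * ((n : ℝ) + 1)), 1 / (2 * ((m : ℝ) + 1))]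
  have ha : ∀ i, 0 < a i := fin3_of_lt one_pos hx hy
  have hn : (0 : ℝ) < 2 * ((n : ℝ) + 1) := by positivity
  have hm : (0 : ℝ) < 2 * ((m : ℝ) + 1) := by positivity
  have h12 : 1 / (2 * ((n : ℝ) + 1)) ≠ 1 / (2 * ((m : ℝ) + 1)) := by
    intro h
    rw [div_eq_div_iff hn.ne' hm.ne'] at h
    apply hnm
    have : (n : ℝ) = m := by linarith
    exact_mod_cast this
  have hb : Function.Injective b := by
    intro i j hij
    fin_cases i <;> fin_cases j
    · rfl
    · exact absurd hij (ne_of_lt (div_pos one_pos hn))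
    · exact absurd hij (ne_of_lt (div_pos one_pos hm))
    · exact absurd hij (ne_of_gt (div_pos one_pos hn))
    · rfl
    · exact absurd hij h12
    · exact absurd hij (ne_of_gt (div_pos one_pos hm))
    · exact absurd hij.symm h12
    · rfl
  have hC : ∀ (i : Fin 3) (s : unitInterval),
      ((c : ℝ), 1 - a i * s / 2, a i * s * b i) ∈ D.C := by
    refine fin3_of_lt ?_ ?_ ?_
    · intro s
      refine Or.inl (Or.inl ⟨c.2, ⟨?_, ?_⟩, ?_⟩)
      · change 0 ≤ 1 - 1 * (s : ℝ) / 2
        have := s.2.2; linarith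
      · change 1 - 1 * (s : ℝ) / 2 ≤ 1
        have := s.2.1; linarith
      · change 1 * (s : ℝ) * 0 = 0
        ring
    · intro s
      refine Or.inr (mem_iUnion.2 ⟨n, (x, D.h x * s), ?_, ?_⟩)
      · right
        refine ⟨x, rfl, mul_nonneg hx.le s.2.1, ?_⟩
        exact mul_le_of_le_one_right hx.le s.2.2
      · change (_, _, _) = (_, _, _)
        refine Prod.ext rfl (Prod.ext rfl ?_)
        change D.h x * s / (2 * ((n : ℝ) + 1)) = D.h x * s * (1 / (2 * ((n : ℝ) + 1)))
        ring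
    · intro s
      refine Or.inr (mem_iUnion.2 ⟨m, (y, D.h y * s), ?_, ?_⟩)
      · right
        refine ⟨y, rfl, mul_nonneg hy.le s.2.1, ?_⟩
        exact mul_le_of_le_one_right hy.le s.2.2
      · refine Prod.ext ?_ (Prod.ext rfl ?_)
        · change ((D.base m y : cantorSet) : ℝ) = c
          rw [← hxy]
        · change D.h y * s / (2 * ((m : ℝ) + 1)) = D.h y * s * (1 / (2 * ((m : ℝ) + 1)))
          ring
  let γ : Fin 3 → unitInterval → D.F := fun i s => Quotient.mk _ ⟨_, hC i s⟩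
  have hJ : ∀ i s, JF D (γ i s) = ((c : ℝ) * (1 - a i * s / 2), 1 - a i * s / 2, a i * s * b i) :=
    fun i s => rfl
  have hJo : JF D o = ((c : ℝ) * 1, 1, 0) := rfl
  refine ⟨o, ram γ o ?_ ?_ ?_ ?_, by rw [hJo]⟩
  · intro i
    refine continuous_quotient_mk'.comp ?_
    exact Continuous.subtype_mk (by fun_prop) _
  · intro i s t h
    have h1 := congrArg (JF D) h
    rw [hJ, hJ] at h1
    simp only [Prod.mk.injEq] at h1
    have h2 : a i * (s : ℝ) = a i * t := by linarith [h1.2.1]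
    exact Subtype.ext (mul_left_cancel₀ (ha i).ne' h2)
  · intro i
    apply injective_JF D
    rw [hJ, hJo]
    simp
  · intro i j hij s t h
    have h1 := congrArg (JF D) h
    rw [hJ, hJ] at h1
    simp only [Prod.mk.injEq] at h1
    obtain ⟨-, h2, h3⟩ := h1
    have h4 : a i * (s : ℝ) = a j * t := by linarith
    rw [← h4] at h3
    by_contra hs
    have hs' : (s : ℝ) ≠ 0 := fun h => hs (Subtype.ext h)
    exact hij (hb (mul_left_cancel₀ (mul_ne_zero (ha i).ne' hs') h3))

/-- If `F` is a fan, then no point carries two hooks. -/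
theorem singleHooks_of_fan (D : Data) {t : D.F} (h : IsFanWithTop D.F t) : D.SingleHooks := by
  intro n m x y hx hy hxy
  by_contra hnm
  obtain ⟨o, ho, hJo⟩ := ram_top D
  obtain ⟨o', ho', hJo'⟩ := ram_double D hx hy hxy hnm
  have h1 := (h.2 o).1 ho
  have h2 := (h.2 o').1 ho'
  rw [h2, ← h1, hJo] at hJo'
  exact zero_ne_one hJo'

end Q173CF
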