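import Pool.Agent.Q173.CF.Hooks
import Pool.Agent.Q173.CF.Defs

/-!
# The planar picture of `F`
-/

namespace Q173CF

open Set Topology Filter

/-- the heights of the bends -/
noncomputable def dl (n : ℕ) : ℝ := (1 / 4) ^ (n + 1)

theorem dl_pos (n : ℕ) : 0 < dl n := by unfold dl; positivity

theorem dl_lt {n m : ℕ} (h : n < m) : 4 * dl m ≤ dl n := by
  have h1 : dl m ≤ dl (n + 1) := by
    unfold dl
    exact pow_le_pow_of_le_one (by norm_num) (by norm_num) (by omega)
  have h2 : dl (n + 1) = dl n / 4 := by unfold dl; rw [pow_succ]; ring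
  linarith

theorem summable_dl : Summable dl := by
  have := (summable_geometric_of_lt_one (r := (1 / 4 : ℝ)) (by norm_num) (by norm_num))
  exact (summable_nat_add_iff 1).2 this

/-- the Cantor space coordinates -/
noncomputable abbrev ee : cantorSet ≃ₜ (ℕ → Bool) := cantorSetHomeomorphNatToBool

namespace Data

variable (D : Data)

/-- base point of the hook -/
def base (n : ℕ) (x : cantorSet) : cantorSet := ((D.φ n x : D.Kn n) : cantorSet)

/-- the point of the hook -/
noncomputable def hook (n : ℕ) (x : cantorSet) (t : ℝ) : ℝ × ℝ × ℝ :=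
  ((D.base n x : ℝ), 1 - t / 2, t / (2 * ((n : ℝ) + 1)))

theorem base_injective (n : ℕ) : Function.Injective (D.base n) := by
  intro x y h
  exact (D.φ n).injective (Subtype.ext h)

theorem continuous_base (n : ℕ) : Continuous (D.base n) :=
  continuous_subtype_val.comp (D.φ n).continuous

/-- the points of `C` -/
theorem mem_C_cases {p : ℝ × ℝ × ℝ} (hp : p ∈ D.C) :
    p ∈ bottom ∨ (∃ (x : cantorSet) (y : ℝ), 0 < y ∧ y ≤ 1 ∧ p = ((x : ℝ), y, 0)) ∨
    (∃ (n : ℕ) (x : cantorSet) (t : ℝ), 0 < t ∧ t ≤ D.h x ∧ p = D.hook n x t) := by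
  obtain ⟨u, v, w⟩ := p
  have key : ∀ (x : cantorSet) (y : ℝ), 0 ≤ y → y ≤ 1 →
      (((x : ℝ), y, (0 : ℝ)) ∈ bottom ∨ (∃ (x' : cantorSet) (y' : ℝ), 0 < y' ∧ y' ≤ 1 ∧
        ((x : ℝ), y, (0 : ℝ)) = ((x' : ℝ), y', 0))) := by
    intro x y hy hy1
    rcases hy.eq_or_lt with h | h
    · left
      exact ⟨cantorSet_subset_unitInterval x.2, h.symm, rfl⟩
    · right
      exact ⟨x, y, h, hy1, rfl⟩
  rcases hp with (h | h) | h
  · obtain ⟨h1, h2, h3⟩ := h
    simp only at h1 h2 h3
    subst h3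
    rcases key ⟨u, h1⟩ v h2.1 h2.2 with h | h
    · exact Or.inl h
    · exact Or.inr (Or.inl h)
  · exact Or.inl h
  · rw [mem_iUnion] at h
    obtain ⟨n, ⟨x, t⟩, hq, hp⟩ := h
    have ht : 0 ≤ t ∧ t ≤ D.h x := by
      rcases hq with ⟨-, h2⟩ | ⟨x', h1, h2, h3⟩
      · simp only at h2
        subst h2
        exact ⟨le_rfl, D.h_nonneg x⟩
      · have : x' = x := Subtype.ext h1.symm
        subst this
        exact ⟨h2, h3⟩
    simp only [Prod.mk.injEq] at hp
    obtain ⟨h1, h2, h3⟩ := hp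
    rcases ht.1.eq_or_lt with h | h
    · subst h
      right; left
      refine ⟨D.base n x, 1, one_pos, le_rfl, ?_⟩
      rw [← h1, ← h2, ← h3]
      simp [base]
    · right; right
      refine ⟨n, x, t, h, ht.2, ?_⟩
      rw [← h1, ← h2, ← h3]
      rfl

end Data

/-- detecting the parameter on the blades of level `n` -/
noncomputable def tau (n : ℕ) (p : ℝ × ℝ × ℝ) : ℝ :=
  2 * ((n : ℝ) + 1) * max 0 (p.2.2 - |1 - p.2.1 - ((n : ℝ) + 1) * p.2.2|)

theorem continuous_tau (n : ℕ) : Continuous (tau n) := by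
  unfold tau
  fun_prop

theorem tau_nonneg (n : ℕ) (p : ℝ × ℝ × ℝ) : 0 ≤ tau n p := by
  unfold tau; positivity

theorem tau_of_z (n : ℕ) {p : ℝ × ℝ × ℝ} (h : p.2.2 = 0) : tau n p = 0 := by
  unfold tau
  rw [h, max_eq_left]
  · ring
  · have := abs_nonneg (1 - p.2.1 - ((n : ℝ) + 1) * 0)
    linarith

theorem tau_hook (D : Data) (n m : ℕ) (x : cantorSet) {t : ℝ} (ht : 0 ≤ t) :
    tau m (D.hook n x t) = if m = n then t else 0 := by
  unfold tau Data.hook
  simp only
  have hn : (0 : ℝ) < (n : ℝ) + 1 := by positivity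
  set z : ℝ := t / (2 * ((n : ℝ) + 1)) with hz
  have hz0 : 0 ≤ z := by positivity
  have ht2 : t = 2 * ((n : ℝ) + 1) * z := by rw [hz]; field_simp
  have h1 : 1 - (1 - t / 2) - ((m : ℝ) + 1) * z = ((n : ℝ) - m) * z := by
    rw [ht2]; ring
  rw [h1]
  split_ifs with h
  · subst h
    simp only [sub_self, zero_mul, abs_zero, sub_zero]
    rw [max_eq_right hz0, ← ht2]
  · have h2 : (1 : ℝ) ≤ |(n : ℝ) - m| := by
      have : (n : ℤ) - m ≠ 0 := by omega
      have h3 := Int.one_le_abs this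
      have h4 : ((1 : ℤ) : ℝ) ≤ ((|(n : ℤ) - m| : ℤ) : ℝ) := by exact_mod_cast h3
      push_cast at h4
      exact h4
    rw [max_eq_left, mul_zero]
    rw [abs_mul, abs_of_nonneg hz0]
    nlinarith

theorem continuous_sg {δ : ℝ} : Continuous (sg δ) := by
  unfold sg
  fun_prop

theorem continuous_cc (k : ℕ) : Continuous (cc k) := by
  unfold cc aa
  have h : Continuous (fun s => (N k s : ℝ)) :=
    (continuous_of_discreteTopology (f := fun n : ℕ => (n : ℝ))).comp (continuous_N k)
  fun_prop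

theorem continuous_rr (k : ℕ) : Continuous (rr k) := by
  unfold rr
  exact (continuous_cc k).sub continuous_gg

theorem abs_sg_le (δ t : ℝ) : |sg δ t| ≤ 1 := by
  unfold sg
  rw [abs_le]
  refine ⟨le_max_left _ _, ?_⟩
  exact max_le (by norm_num) (min_le_left _ _)

/-- Suitable levels exist. -/
theorem exists_levels (D : Data) (hS : D.SingleHooks) : ∃ kk : ℕ → ℕ, StrictMono kk ∧
    ∀ n, 3 / 2 * wd (kk n) ≤ dl n ∧ ∀ m < n, ∀ x y : cantorSet, dl n ≤ D.h x → dl n ≤ D.h y →
      N (kk n) (ee (D.base n x)) ≠ N (kk n) (ee (D.base m y)) := by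
  have hev : ∀ n, ∀ᶠ k in atTop, 3 / 2 * wd k ≤ dl n ∧ ∀ m < n, ∀ x y : cantorSet,
      dl n ≤ D.h x → dl n ≤ D.h y → N k (ee (D.base n x)) ≠ N k (ee (D.base m y)) := by
    intro n
    refine Eventually.and ?_ ?_
    · have h1 : Tendsto (fun k => 3 / 2 * wd k) atTop (𝓝 (3 / 2 * 0)) := by
        refine Tendsto.const_mul _ ?_
        unfold wd
        exact tendsto_pow_atTop_nhds_zero_of_lt_one (by norm_num) (by norm_num)
      rw [mul_zero] at h1
      exact h1.eventually_le_const (dl_pos n)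
    · have h2 : ∀ m ∈ Finset.range n, ∀ᶠ k in atTop, ∀ x y : cantorSet,
          dl n ≤ D.h x → dl n ≤ D.h y → N k (ee (D.base n x)) ≠ N k (ee (D.base m y)) := by
        intro m hm
        rw [Finset.mem_range] at hm
        have hcl : IsClosed {x : cantorSet | dl n ≤ D.h x} := by
          have := D.h_usc.isClosed_preimage (dl n)
          exact this
        have hcl' : ∀ l, IsClosed ((fun x => ee (D.base l x)) '' {x : cantorSet | dl n ≤ D.h x}) := by
          intro l
          haveI : CompactSpace cantorSet := isCompact_iff_compactSpace.1 isCompact_cantorSet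
          exact (hcl.isCompact.image (ee.continuous.comp (D.continuous_base l))).isClosed
        obtain ⟨k₀, hk₀⟩ := separate (hcl' n) (hcl' m) (by
          rintro _ ⟨x, hx, rfl⟩ ⟨y, hy, hxy⟩
          have h3 := ee.injective hxy
          have h4 := hS n m x y ((dl_pos n).trans_le hx) ((dl_pos n).trans_le hy) h3.symm
          omega)
        refine eventually_atTop.2 ⟨k₀, fun k hk x y hx hy => ?_⟩
        exact hk₀ k hk _ ⟨x, hx, rfl⟩ _ ⟨y, hy, rfl⟩
      have h3 := (Finset.eventually_all (Finset.range n)).2 h2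
      filter_upwards [h3] with k hk m hm
      exact hk m (Finset.mem_range.2 hm)
  obtain ⟨kk, h1, h2⟩ := extraction_forall_of_eventually hev
  exact ⟨kk, h1, h2⟩

end Q173CF
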