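import Pool.Agent.Q173.CF.Map

/-!
# `F` is planar when no point carries two hooks
-/

namespace Q173CF

open Set Topology Filter

/-- horizontal displacement -/
noncomputable def ha (R : ℝ) (δ τ : ℝ) : ℝ := R * (1 + sg δ τ)

/-- vertical displacement -/
noncomputable def hb (R : ℝ) (δ τ : ℝ) : ℝ := min τ δ + R * (1 - |sg δ τ|) + min τ (2 * δ) / 2

theorem sg_zero {δ : ℝ} (hδ : 0 < δ) : sg δ 0 = -1 := by
  unfold sg
  have : 2 * (0 - δ) / δ ≤ 0 := by
    apply div_nonpos_of_nonpos_of_nonneg <;> linarith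
  rw [min_eq_right (by linarith), max_eq_left (by linarith)]

theorem ha_zero {δ : ℝ} (hδ : 0 < δ) (R : ℝ) : ha R δ 0 = 0 := by
  unfold ha; rw [sg_zero hδ]; ring

theorem hb_zero {δ : ℝ} (hδ : 0 < δ) (R : ℝ) : hb R δ 0 = 0 := by
  unfold hb; rw [sg_zero hδ, min_eq_left hδ.le, min_eq_left (by linarith)]; simp

theorem ha_bound {δ R τ : ℝ} (hR : 0 ≤ R) (hRδ : R ≤ δ) : |ha R δ τ| ≤ 2 * δ := by
  have h := abs_le.1 (abs_sg_le δ τ)
  unfold ha
  rw [abs_of_nonneg (by nlinarith [h.1])]
  nlinarith [h.1, h.2]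

theorem hb_bound {δ R τ : ℝ} (hδ : 0 < δ) (hR : 0 ≤ R) (hRδ : R ≤ δ) (hτ : 0 ≤ τ) :
    |hb R δ τ| ≤ 3 * δ := by
  have h := abs_sg_le δ τ
  have h0 := abs_nonneg (sg δ τ)
  have h1 : 0 ≤ min τ δ := le_min hτ hδ.le
  have h2 : 0 ≤ min τ (2 * δ) := le_min hτ (by linarith)
  have h3 : min τ δ ≤ δ := min_le_right _ _
  have h4 : min τ (2 * δ) ≤ 2 * δ := min_le_right _ _
  have h5 : 0 ≤ R * (1 - |sg δ τ|) := mul_nonneg hR (by linarith)
  have h6 : R * (1 - |sg δ τ|) ≤ δ := by nlinarith
  unfold hb
  rw [abs_of_nonneg (by linarith)]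
  linarith

variable (D : Data)

/-- `F` is planar when no point carries two hooks. -/
theorem exists_map (hS : D.SingleHooks) : ∃ Φ : D.C → ℝ × ℝ, Continuous Φ ∧
    ∀ p q : D.C, Φ p = Φ q ↔ D.collapse p q := by
  obtain ⟨kk, hmono, hkk⟩ := exists_levels D hS
  obtain ⟨G, hG⟩ := ContinuousMap.exists_restrict_eq isClosed_cantorSet
    (⟨fun x => gg (ee x), continuous_gg.comp ee.continuous⟩ : C(cantorSet, ℝ))
  have hG' : ∀ x : cantorSet, G x = gg (ee x) := fun x => DFunLike.congr_fun hG x
  have hRex : ∀ n, ∃ R : C(ℝ, ℝ), ∀ x : cantorSet, R x = rr (kk n) (ee x) := by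
    intro n
    obtain ⟨R, hR⟩ := ContinuousMap.exists_restrict_eq isClosed_cantorSet
      (⟨fun x => rr (kk n) (ee x), (continuous_rr _).comp ee.continuous⟩ : C(cantorSet, ℝ))
    exact ⟨R, fun x => DFunLike.congr_fun hR x⟩
  choose R hR using hRex
  let a : ℕ → D.C → ℝ := fun n p => ha (R n p.1.1) (dl n) (tau n p.1)
  let b : ℕ → D.C → ℝ := fun n p => hb (R n p.1.1) (dl n) (tau n p.1)
  have hac : ∀ n, Continuous (a n) := by
    intro n
    have h1 : Continuous (fun p : D.C => R n p.1.1) :=
      (R n).continuous.comp (continuous_fst.comp continuous_subtype_val)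
    have h2 : Continuous (fun p : D.C => sg (dl n) (tau n p.1)) :=
      continuous_sg.comp ((continuous_tau n).comp continuous_subtype_val)
    exact h1.mul (continuous_const.add h2)
  have hbc : ∀ n, Continuous (b n) := by
    intro n
    have h1 : Continuous (fun p : D.C => R n p.1.1) :=
      (R n).continuous.comp (continuous_fst.comp continuous_subtype_val)
    have h3 : Continuous (fun p : D.C => tau n p.1) :=
      (continuous_tau n).comp continuous_subtype_val
    have h2 : Continuous (fun p : D.C => sg (dl n) (tau n p.1)) := continuous_sg.comp h3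
    exact ((h3.min continuous_const).add (h1.mul (continuous_const.sub h2.abs))).add
      ((h3.min continuous_const).div_const 2)
  -- bounds
  have hRb : ∀ n (x : cantorSet), 0 ≤ R n x ∧ R n x ≤ dl n := by
    intro n x
    rw [hR]
    exact ⟨(rr_pos _ _).le, (rr_le _ _).trans (hkk n).1⟩
  have hbound : ∀ n (p : D.C), |a n p| ≤ 2 * dl n ∧ |b n p| ≤ 3 * dl n := by
    intro n p
    rcases D.mem_C_cases p.2 with h | ⟨x, y, -, -, h⟩ | ⟨m, x, t, -, -, h⟩
    · have h0 : tau n p.1 = 0 := tau_of_z n h.2.2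
      have h1 : a n p = 0 := by
        change ha _ _ (tau n p.1) = 0
        rw [h0, ha_zero (dl_pos n)]
      have h2 : b n p = 0 := by
        change hb _ _ (tau n p.1) = 0
        rw [h0, hb_zero (dl_pos n)]
      rw [h1, h2, abs_zero]
      have := dl_pos n
      constructor <;> linarith
    · have h1 : (p : ℝ × ℝ × ℝ).1 = x := by rw [h]
      obtain ⟨h2, h3⟩ := hRb n x
      rw [← h1] at h2 h3
      exact ⟨ha_bound h2 h3, hb_bound (dl_pos n) h2 h3 (tau_nonneg _ _)⟩
    · have h1 : (p : ℝ × ℝ × ℝ).1 = D.base m x := by rw [h]; rfl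
      obtain ⟨h2, h3⟩ := hRb n (D.base m x)
      rw [← h1] at h2 h3
      exact ⟨ha_bound h2 h3, hb_bound (dl_pos n) h2 h3 (tau_nonneg _ _)⟩
  have hAc : Continuous (fun p => ∑' n, a n p) :=
    continuous_tsum hac (summable_dl.mul_left 2) (fun n p => by
      rw [Real.norm_eq_abs]; exact (hbound n p).1)
  have hBc : Continuous (fun p => ∑' n, b n p) :=
    continuous_tsum hbc (summable_dl.mul_left 3) (fun n p => by
      rw [Real.norm_eq_abs]; exact (hbound n p).2)
  let u : D.C → ℝ := fun p => G p.1.1 + ∑' n, a n p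
  let v : D.C → ℝ := fun p => p.1.2.1 + ∑' n, b n p
  have huc : Continuous u :=
    (G.continuous.comp (continuous_fst.comp continuous_subtype_val)).add hAc
  have hvc : Continuous v :=
    (continuous_fst.comp (continuous_snd.comp continuous_subtype_val)).add hBc
  -- values
  have hz : ∀ p : D.C, p.1.2.2 = 0 → u p = G p.1.1 ∧ v p = p.1.2.1 := by
    intro p hp
    have h1 : ∀ n, a n p = 0 := by
      intro n
      change ha _ _ (tau n p.1) = 0
      rw [tau_of_z n hp, ha_zero (dl_pos n)]
    have h2 : ∀ n, b n p = 0 := by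
      intro n
      change hb _ _ (tau n p.1) = 0
      rw [tau_of_z n hp, hb_zero (dl_pos n)]
    change G p.1.1 + ∑' n, a n p = G p.1.1 ∧ p.1.2.1 + ∑' n, b n p = p.1.2.1
    simp [h1, h2]
  have hhook : ∀ (p : D.C) (n : ℕ) (x : cantorSet) (t : ℝ), 0 < t → p.1 = D.hook n x t →
      u p = UU (kk n) (dl n) (ee (D.base n x)) t ∧ v p = WW (kk n) (dl n) (ee (D.base n x)) t := by
    intro p n x t ht hp
    have h0 : ∀ m, tau m p.1 = if m = n then t else 0 := by
      intro m
      rw [hp]; exact tau_hook D n m x ht.le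
    have h1 : ∀ m, m ≠ n → a m p = 0 := by
      intro m hm
      change ha _ _ (tau m p.1) = 0
      rw [h0, if_neg hm, ha_zero (dl_pos m)]
    have h2 : ∀ m, m ≠ n → b m p = 0 := by
      intro m hm
      change hb _ _ (tau m p.1) = 0
      rw [h0, if_neg hm, hb_zero (dl_pos m)]
    have h3 : p.1.1 = (D.base n x : ℝ) := by rw [hp]; rfl
    have h4 : p.1.2.1 = 1 - t / 2 := by rw [hp]; rfl
    have h5 : u p = G p.1.1 + a n p := by
      change G p.1.1 + ∑' n, a n p = _
      rw [tsum_eq_single n h1]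
    have h6 : v p = p.1.2.1 + b n p := by
      change p.1.2.1 + ∑' n, b n p = _
      rw [tsum_eq_single n h2]
    have h7 : a n p = rr (kk n) (ee (D.base n x)) * (1 + sg (dl n) t) := by
      change ha (R n p.1.1) (dl n) (tau n p.1) = _
      rw [h0, if_pos rfl, h3, hR]; rfl
    have h8 : b n p = min t (dl n) + rr (kk n) (ee (D.base n x)) * (1 - |sg (dl n) t|) +
        min t (2 * dl n) / 2 := by
      change hb (R n p.1.1) (dl n) (tau n p.1) = _
      rw [h0, if_pos rfl, h3, hR]; rfl
    rw [h5, h6, h7, h8, h3, h4, hG']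
    constructor
    · unfold UU rr; ring
    · unfold WW
      rcases le_total t (2 * dl n) with h | h
      · rw [min_eq_left h, max_eq_left (by linarith)]; ring
      · rw [min_eq_right h, max_eq_right (by linarith)]; ring
  refine ⟨fun p => (u p * v p, v p), (huc.mul hvc).prodMk hvc, ?_⟩
  -- positivity of `v` off the bottom
  have hbot : ∀ p : D.C, p.1 ∈ bottom → v p = 0 := by
    intro p hp
    rw [(hz p hp.2.2).2]; exact hp.2.1
  have hpos : ∀ p : D.C, p.1 ∉ bottom → 0 < v p := by
    intro p hp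
    rcases D.mem_C_cases p.2 with h | ⟨x, y, h1, h2, h⟩ | ⟨m, x, t, h1, h2, h⟩
    · exact absurd h hp
    · rw [(hz p (by rw [h])).2, h]
      exact h1
    · rw [(hhook p m x t h1 h).2]
      exact WW_pos (dl_pos m) _ h1.le (h2.trans (D.h_le_one x))
  have hinj : ∀ p q : D.C, p.1 ∉ bottom → q.1 ∉ bottom → u p = u q → v p = v q → p = q := by
    intro p q hp hq hu hv
    have hH : ∀ (p q : D.C) (x : cantorSet) (y : ℝ) (n : ℕ) (x' : cantorSet) (t : ℝ),
        y ≤ 1 → p.1 = ((x : ℝ), y, 0) → 0 < t → q.1 = D.hook n x' t → u p = u q → v p = v q →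
          False := by
      intro p q x y n x' t hy hp ht hq hu hv
      have h1 := hz p (by rw [hp])
      have h2 := hhook q n x' t ht hq
      have h3 : G p.1.1 = gg (ee x) := by rw [hp]; exact hG' x
      have h4 : p.1.2.1 = y := by rw [hp]
      exact hook_ne_blade (dl_pos n) (ee (D.base n x')) (ee x) ht hy
        (by rw [← h2.1, ← hu, h1.1, h3]) (by rw [← h2.2, ← hv, h1.2, h4])
    have hL : ∀ (p q : D.C) (n m : ℕ) (x x' : cantorSet) (t t' : ℝ), 0 < t → t ≤ D.h x →
        0 < t' → t' ≤ D.h x' → p.1 = D.hook n x t → q.1 = D.hook m x' t' → u p = u q → v p = v q →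
        n < m → False := by
      intro p q n m x x' t t' ht htx ht' htx' hp hq hu hv hnm
      have h1 := hhook p n x t ht hp
      have h2 := hhook q m x' t' ht' hq
      refine inj_lt (dl_pos m) (hmono hnm) (dl_lt hnm) (hkk m).1 (s := ee (D.base n x))
        (s' := ee (D.base m x')) (t := t) (t' := t') ?_ ?_ (by rw [← h1.1, ← h2.1, hu])
        (by rw [← h1.2, ← h2.2, hv])
      · intro h
        have h3 := ee.injective h
        have h4 := hS n m x x' (ht.trans_le htx) (ht'.trans_le htx') h3
        omega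
      · intro h3 h4 h5
        exact (hkk m).2 n hnm x' x (h4.trans htx') (h3.trans htx) h5.symm
    rcases D.mem_C_cases p.2 with h | ⟨x, y, h1, h2, h⟩ | ⟨n, x, t, h1, h2, h⟩
    · exact absurd h hp
    · rcases D.mem_C_cases q.2 with g | ⟨x', y', g1, g2, g⟩ | ⟨m, x', t', g1, g2, g⟩
      · exact absurd g hq
      · have e1 := hz p (by rw [h])
        have e2 := hz q (by rw [g])
        have e3 : G p.1.1 = gg (ee x) := by rw [h]; exact hG' x
        have e4 : G q.1.1 = gg (ee x') := by rw [g]; exact hG' x'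
        have e5 : p.1.2.1 = y := by rw [h]
        have e6 : q.1.2.1 = y' := by rw [g]
        have e7 : gg (ee x) = gg (ee x') := by rw [← e3, ← e4, ← e1.1, ← e2.1, hu]
        have e8 : x = x' := ee.injective (gg_injective e7)
        have e9 : y = y' := by rw [← e5, ← e6, ← e1.2, ← e2.2, hv]
        apply Subtype.ext
        rw [h, g, e8, e9]
      · exact (hH p q x y m x' t' h2 h g1 g hu hv).elim
    · rcases D.mem_C_cases q.2 with g | ⟨x', y', g1, g2, g⟩ | ⟨m, x', t', g1, g2, g⟩
      · exact absurd g hq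
      · exact (hH q p x' y' n x t g2 g h1 h hu.symm hv.symm).elim
      · rcases lt_trichotomy n m with hnm | hnm | hnm
        · exact (hL p q n m x x' t t' h1 h2 g1 g2 h g hu hv hnm).elim
        · subst hnm
          have e1 := hhook p n x t h1 h
          have e2 := hhook q n x' t' g1 g
          obtain ⟨e3, e4⟩ := inj_same (k := kk n) (dl_pos n) (s := ee (D.base n x))
            (s' := ee (D.base n x')) (t := t) (t' := t') (by rw [← e1.1, ← e2.1, hu])
            (by rw [← e1.2, ← e2.2, hv])
          have e5 := D.base_injective n (ee.injective e3)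
          apply Subtype.ext
          rw [h, g, e5, e4]
        · exact (hL q p m n x' x t' t g1 g2 h1 h2 g h hu.symm hv.symm hnm).elim
  intro p q
  constructor
  · intro h
    simp only [Prod.mk.injEq] at h
    by_cases hp : p.1 ∈ bottom
    · by_cases hq : q.1 ∈ bottom
      · exact Or.inr ⟨hp, hq⟩
      · have h1 := hbot p hp
        have h2 := hpos q hq
        rw [← h.2, h1] at h2
        exact (lt_irrefl _ h2).elim
    · by_cases hq : q.1 ∈ bottom
      · have h1 := hbot q hq
        have h2 := hpos p hp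
        rw [h.2, h1] at h2
        exact (lt_irrefl _ h2).elim
      · left
        refine hinj p q hp hq ?_ h.2
        have h1 := h.1
        rw [h.2] at h1
        exact mul_right_cancel₀ (hpos q hq).ne' h1
  · rintro (h | ⟨h1, h2⟩)
    · rw [h]
    · simp [hbot p h1, hbot q h2]

end Q173CF
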